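import Mathlib

set_option autoImplicit false

namespace Pool.Agent.H.MP_55e6a3_gt

open Set Filter Topology Cardinal

abbrev I : Type := (aleph 1).ord.ToType
abbrev L : Type := (aleph 2).ord.ToType

theorem cIio (a : I) : (Iio a).Countable := by
  have h : #(Iio a) < aleph 1 := by simpa using mk_Iio_lt a
  rw [← le_aleph0_iff_set_countable]
  exact Order.lt_succ_iff.1 (h.trans_eq succ_aleph0.symm)

theorem cIic (a : I) : (Iic a).Countable := by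
  rw [← Iio_insert]; exact (cIio a).insert a

theorem mkI : #I = aleph 1 := by simp [I]
theorem mkL : #L = aleph 2 := by simp [L]

theorem a12 : Order.succ (aleph 1 : Cardinal.{0}) = aleph 2 := by
  rw [← aleph_succ]; norm_num

theorem bddI {s : Set I} (hs : s.Countable) : ∃ b, ∀ a ∈ s, a < b := by
  by_contra h
  push Not at h
  have : (univ : Set I).Countable := (hs.biUnion fun a _ => cIic a).mono fun b _ => by
    obtain ⟨a, ha, hb⟩ := h b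
    exact mem_biUnion ha hb
  rw [← le_aleph0_iff_set_countable, mk_univ, mkI] at this
  exact this.not_gt aleph0_lt_aleph_one

theorem cL (a : L) : #(Iic a) ≤ aleph 1 := by
  have h : #(Iio a) < aleph 2 := by simpa using mk_Iio_lt a
  rw [← Iio_insert]
  refine mk_insert_le.trans ?_
  exact add_le_of_le aleph0_lt_aleph_one.le (Order.lt_succ_iff.1 (h.trans_eq a12.symm))
    (one_le_aleph0.trans aleph0_lt_aleph_one.le)

theorem bddL {ι : Type} (h : #ι ≤ aleph 1) (g : ι → L) : ∃ b, ∀ i, g i < b := by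
  by_contra h1
  push Not at h1
  have h2 : (univ : Set L) ⊆ ⋃ i, Iic (g i) := fun b _ => mem_iUnion.2 (h1 b)
  have h3 := (mk_le_mk_of_subset h2).trans (mk_iUnion_le _)
  rw [mk_univ, mkL] at h3
  have h4 : #ι * ⨆ i, #(Iic (g i)) ≤ aleph 1 :=
    mul_le_of_le aleph0_lt_aleph_one.le h (ciSup_le' fun i => cL _)
  exact (h3.trans h4).not_gt (a12 ▸ Order.lt_succ _)

instance : Nonempty I := ⟨(bddI countable_empty).choose⟩

instance : Nonempty L := ⟨(bddL (ι := Empty) (by simp) Empty.elim).choose⟩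

def U (d : L) : Prop := ∀ C : Set L, C.Countable → C ⊆ Iio d → ∃ b < d, ∀ c ∈ C, c < b

theorem fix (G : L → L) (b0 : L) : ∃ d, U d ∧ b0 < d ∧ ∀ a < d, G a < d := by
  have h1 : ∀ (ξ : I) (g : Iio ξ → L), ∃ b, b0 < b ∧ ∀ η, g η < b ∧ ∀ a ≤ g η, G a < b := by
    intro ξ g
    have h2 : #(Iio ξ) ≤ aleph 1 :=
      (le_aleph0_iff_set_countable.2 (cIio ξ)).trans aleph0_lt_aleph_one.le
    choose B hB using fun η => bddL (cL (g η)) fun a => G a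
    obtain ⟨b1, h3⟩ := bddL h2 g
    obtain ⟨b2, h4⟩ := bddL h2 B
    obtain ⟨b3, h5⟩ := bddL (ι := Unit) (by simpa using one_le_aleph0.trans aleph0_lt_aleph_one.le)
      fun _ => b0
    exact ⟨max b1 (max b2 b3), lt_max_of_lt_right (lt_max_of_lt_right (h5 ())), fun η =>
      ⟨lt_max_of_lt_left (h3 η), fun a ha => lt_max_of_lt_right (lt_max_of_lt_left
        ((hB η ⟨a, ha⟩).trans (h4 η)))⟩⟩
  choose F hF using h1
  obtain ⟨c, hc⟩ : ∃ c : I → L, ∀ ξ, c ξ = F ξ fun η => c η :=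
    ⟨wellFounded_lt.fix fun ξ r => F ξ fun η => r η η.2, fun ξ => wellFounded_lt.fix_eq _ ξ⟩
  have h2 : ∀ η ξ, η < ξ → c η < c ξ ∧ ∀ a ≤ c η, G a < c ξ := fun η ξ h => by
    rw [hc ξ]; exact (hF ξ fun η => c η).2 ⟨η, h⟩
  obtain ⟨u, hu⟩ := bddL mkI.le c
  have hne : {u | ∀ ξ, c ξ < u}.Nonempty := ⟨u, hu⟩
  have h3 : ∀ ξ, c ξ < wellFounded_lt.min _ hne := wellFounded_lt.min_mem _ hne
  have h4 : ∀ a < wellFounded_lt.min _ hne, ∃ ξ, a ≤ c ξ := fun a ha => by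
    by_contra h
    push Not at h
    exact wellFounded_lt.not_lt_min {u | ∀ ξ, c ξ < u} (x := a) h ha
  refine ⟨wellFounded_lt.min _ hne, fun C hC h5 => ?_, ?_, fun a ha => ?_⟩
  · choose! g hg using h4
    obtain ⟨ξ, h6⟩ := bddI (hC.image g)
    exact ⟨c ξ, h3 ξ, fun a ha => (hg a (h5 ha)).trans_lt (h2 _ _ (h6 _ ⟨a, ha, rfl⟩)).1⟩
  · obtain ⟨ξ, -⟩ := bddI countable_empty
    exact lt_trans (by rw [hc ξ]; exact (hF ξ _).1) (h3 ξ)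
  · obtain ⟨η, h5⟩ := h4 a ha
    obtain ⟨ξ, h6⟩ := bddI (countable_singleton η)
    exact ((h2 η ξ (h6 η rfl)).2 a h5).trans (h3 ξ)

theorem thin0 (d : L) (W : Set L) (hW : ∀ b < d, ∃ c ∈ W, b < c ∧ c < d) :
    ∃ Z ⊆ W, Z ⊆ Iio d ∧ (∀ b < d, ∃ c ∈ Z, b < c) ∧ ∀ b < d, (Z ∩ Iic b).Countable := by
  obtain ⟨r⟩ : #(Iic d) ≤ #I := mkI ▸ cL d
  refine ⟨{c ∈ W | ∃ h : c < d, ∀ c' ∈ W, ∀ h' : c' < d, r ⟨c', h'.le⟩ < r ⟨c, h.le⟩ → c' < c},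
    fun c hc => hc.1, fun c hc => hc.2.1, fun b hb => ?_, fun b hb => ?_⟩
  · obtain ⟨c, h1, h2, h3⟩ := hW b hb
    obtain ⟨a, ⟨a1, a2, a3⟩, h4⟩ := (InvImage.wf r wellFounded_lt).has_min
      {a : Iic d | a.1 ∈ W ∧ b < a.1 ∧ a.1 < d} ⟨⟨c, h3.le⟩, h1, h2, h3⟩
    exact ⟨a, ⟨a1, a3, fun c' h5 h6 h7 => lt_of_le_of_lt (not_lt.1 fun h8 =>
      h4 ⟨c', h6.le⟩ ⟨h5, h8, h6⟩ h7) a2⟩, a2⟩
  · obtain ⟨c, h1, h2, h3⟩ := hW b hb
    refine (((cIic (r ⟨c, h3.le⟩)).preimage r.injective).image Subtype.val).mono ?_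
    rintro a ⟨⟨-, a1, a2⟩, a3⟩
    exact ⟨⟨a, a1.le⟩, not_lt.1 fun h => (a2 c h1 h3 h).not_gt (lt_of_le_of_lt a3 h2), rfl⟩

def T (C : Set L) (g : L) : Set L := (⋃ c ∈ C, Iic c)ᶜ ∩ Iic g

def P (x : Ultrafilter L) (g : L) : Prop :=
  (∀ C : Set L, C.Countable → C ⊆ Iio g → T C g ∈ x) ∧ (¬ U g → {g} ∈ x)

structure Pc where
  K : Set (Ultrafilter L)
  g : L
  S : Set L

instance : Nonempty Pc := ⟨⟨∅, Classical.arbitrary _, ∅⟩⟩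

def Good (A : Set Pc) : Prop :=
  ∀ p ∈ A, IsClosed p.K ∧ (∀ x ∈ p.K, P x p.g ∧ p.S ∈ x) ∧ ∀ q ∈ A, ∀ y ∈ q.K, p.S ∈ y → q = p

def Thin (A : Set Pc) (d : L) (Z : Set Pc) : Prop :=
  Z ⊆ A ∧ InjOn Pc.g Z ∧ (∀ p ∈ Z, p.g < d) ∧ (∀ b < d, ∃ p ∈ Z, b < p.g) ∧
    ∀ b < d, (Pc.g '' Z ∩ Iic b).Countable

def SZ (Z : Set Pc) : Set L := ⋃ p ∈ Z, p.S ∩ T (Pc.g '' Z ∩ Iio p.g) p.g

def KZ (d : L) (Z : Set Pc) : Set (Ultrafilter L) :=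
  ⋂ b < d, closure (⋃ p ∈ {p ∈ Z | b < p.g}, p.K)

theorem claim {A Z : Set Pc} {d : L} (hA : Good A) (hZ : Thin A d Z) {q : Pc} (hq : q ∈ A)
    (h1 : q.g < d) {y : Ultrafilter L} (hy : y ∈ q.K) (h2 : SZ Z ∈ y) : q ∈ Z := by
  obtain ⟨p, ⟨p1, p2⟩, p3⟩ := (InvImage.wf Pc.g wellFounded_lt).has_min {p ∈ Z | q.g ≤ p.g} (by
    obtain ⟨p, h3, h4⟩ := hZ.2.2.2.1 _ h1
    exact ⟨p, h3, h4.le⟩)
  have h3 := (((hA q hq).2.1 y hy).1.1 (Pc.g '' Z ∩ Iio q.g)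
    ((hZ.2.2.2.2 _ h1).mono (inter_subset_inter_right _ Iio_subset_Iic_self)) inter_subset_right)
  rw [(hA p (hZ.1 p1)).2.2 q hq y hy (mem_of_superset (inter_mem h3 h2) ?_)]
  · exact p1
  rintro a ⟨a1, a2⟩
  obtain ⟨r, hr, a3, a4⟩ := mem_iUnion₂.1 a2
  have h4 : q.g ≤ r.g := not_lt.1 fun h => a1.1 (mem_biUnion (x := r.g) ⟨⟨r, hr, rfl⟩, h⟩ a4.2)
  rcases (not_lt.1 (p3 r ⟨hr, h4⟩) : p.g ≤ r.g).eq_or_lt with h | h
  · rwa [hZ.2.1 p1 hr h]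
  · exact absurd (mem_biUnion (x := p.g) (mem_inter (mem_image_of_mem _ p1) h)
      (mem_Iic.2 (le_trans (mem_Iic.1 a1.2) p2))) a4.1

theorem KZ_mem {Z : Set Pc} {d b : L} (hb : b < d) {s : Set L}
    (h : ∀ p ∈ Z, b < p.g → ∀ y ∈ p.K, s ∈ y) {x : Ultrafilter L} (hx : x ∈ KZ d Z) : s ∈ x :=
  closure_minimal (t := {u : Ultrafilter L | s ∈ u}) (iUnion₂_subset fun p hp y hy =>
    h p hp.1 hp.2 y hy) (ultrafilter_isClosed_basic s) (mem_iInter₂.1 hx b hb)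

theorem step {A : Set Pc} (hA : Good A) : ∃ B, Good B ∧ ∀ d, U d → ∀ W : Set (Ultrafilter L),
    (∀ b < d, ∃ p ∈ A, b < p.g ∧ p.g < d ∧ (p.K ∩ W).Nonempty) →
      ∃ q ∈ B, q.g = d ∧ (q.K ∩ closure W).Nonempty := by
  have h1 : ∀ d, ∃ 𝒜, Maximal (· ∈ {𝒜 : Set (Set Pc) | (∀ Z ∈ 𝒜, Thin A d Z) ∧
      𝒜.Pairwise fun Z Z' => ∃ b < d, ∀ p ∈ Z ∩ Z', p.g ≤ b}) 𝒜 := fun d =>
    zorn_subset _ fun c hc hch => ⟨⋃₀ c, ⟨fun Z ⟨a, ha, h⟩ => (hc ha).1 Z h,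
      fun Z ⟨a, ha, h⟩ Z' ⟨a', ha', h'⟩ hne => (hch.total ha ha').elim
        (fun h1 => (hc ha').2 (h1 h) h' hne) fun h1 => (hc ha).2 h (h1 h') hne⟩,
      fun s hs => subset_sUnion_of_mem hs⟩
  choose 𝒜 h𝒜 using h1
  have h2 : ∀ d, U d → ∀ Z, Thin A d Z → ∀ x ∈ KZ d Z, P x d ∧ SZ Z ∈ x := by
    intro d hd Z hZ x hx
    refine ⟨⟨fun C hC h1 => ?_, fun h => absurd hd h⟩, ?_⟩
    · obtain ⟨b, b1, b2⟩ := hd C hC h1
      refine KZ_mem b1 (fun p hp h3 y hy => mem_of_superset (((hA p (hZ.1 hp)).2.1 y hy).1.1 C hC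
        fun c hc => (b2 c hc).trans h3) ?_) hx
      exact inter_subset_inter_right _ (Iic_subset_Iic.2 (hZ.2.2.1 p hp).le)
    · obtain ⟨b, b1, -⟩ := hd ∅ countable_empty (empty_subset _)
      refine KZ_mem b1 (fun p hp _ y hy => ?_) hx
      have h3 := (hA p (hZ.1 hp)).2.1 y hy
      exact mem_of_superset (inter_mem h3.2 (h3.1.1 _ ((hZ.2.2.2.2 _ (hZ.2.2.1 p hp)).mono
        (inter_subset_inter_right _ Iio_subset_Iic_self)) inter_subset_right))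
        (subset_biUnion_of_mem (u := fun p => p.S ∩ T (Pc.g '' Z ∩ Iio p.g) p.g) hp)
  refine ⟨{q | U q.g ∧ ∃ Z ∈ 𝒜 q.g, q = ⟨KZ q.g Z, q.g, SZ Z⟩}, ?_, fun d hd W hW => ?_⟩
  · rintro ⟨K, d, S⟩ ⟨hd, Z, hZ, e⟩
    simp only [Pc.mk.injEq, true_and] at hd hZ e
    obtain ⟨rfl, rfl⟩ := e
    have t1 := (h𝒜 d).1.1 Z hZ
    refine ⟨isClosed_biInter fun _ _ => isClosed_closure, h2 d hd Z t1, ?_⟩
    rintro ⟨K', d', S'⟩ ⟨hd', Z', hZ', e⟩ y hy h3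
    simp only [Pc.mk.injEq, true_and] at hd' hZ' e hy h3
    obtain ⟨rfl, rfl⟩ := e
    have t2 := (h𝒜 d').1.1 Z' hZ'
    have h4 : d' ≤ d := not_lt.1 fun h => by
      obtain ⟨a, a1, a2⟩ := Filter.nonempty_of_mem (inter_mem h3 ((h2 d' hd' Z' t2 y hy).1.1 {d}
        (countable_singleton d) (singleton_subset_iff.2 h)))
      obtain ⟨p, hp, a3⟩ := mem_iUnion₂.1 a1
      exact a2.1 (mem_biUnion (mem_singleton d) (le_trans a3.2.2 (t1.2.2.1 p hp).le))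
    have h5 : ∀ b < d', ∃ p ∈ Z ∩ Z', b < p.g := fun b hb => by
      obtain ⟨z, z1, z2⟩ := mem_closure_iff.1 (mem_iInter₂.1 hy b hb) _
        (ultrafilter_isOpen_basic (SZ Z)) h3
      obtain ⟨p, hp, z3⟩ := mem_iUnion₂.1 z2
      exact ⟨p, ⟨claim hA t1 (t2.1 hp.1) ((t2.2.2.1 p hp.1).trans_le h4) z3 z1, hp.1⟩, hp.2⟩
    rcases h4.eq_or_lt with rfl | h4
    · by_contra h6
      obtain ⟨b, b1, b2⟩ := (h𝒜 d').1.2 hZ hZ' fun e => h6 (by rw [e])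
      obtain ⟨p, p1, p2⟩ := h5 b b1
      exact (b2 p p1).not_gt p2
    · obtain ⟨b, b1, b2⟩ := hd' (Pc.g '' Z ∩ Iio d') ((t1.2.2.2.2 _ h4).mono
        (inter_subset_inter_right _ Iio_subset_Iic_self)) inter_subset_right
      obtain ⟨p, p1, p2⟩ := h5 b b1
      exact absurd (b2 _ ⟨⟨p, p1.1, rfl⟩, t2.2.2.1 p p1.2⟩) p2.not_gt
  · obtain ⟨Z0, z1, z2, z3, z4⟩ := thin0 d {c | ∃ p ∈ A, p.g = c ∧ (p.K ∩ W).Nonempty}
      fun b hb => by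
        obtain ⟨p, p1, p2, p3, p4⟩ := hW b hb
        exact ⟨_, ⟨p, p1, rfl, p4⟩, p2, p3⟩
    replace z1 : ∀ a, a ∈ Z0 → ∃ p ∈ A, p.g = a ∧ (p.K ∩ W).Nonempty := fun a ha => z1 ha
    choose! π π1 π2 π3 using z1
    have t1 : Thin A d (π '' Z0) := by
      have e : Pc.g '' (π '' Z0) = Z0 := by
        rw [image_image]; exact (image_congr fun a ha => π2 a ha).trans (image_id' _)
      refine ⟨by rintro _ ⟨a, ha, rfl⟩; exact π1 a ha, ?_, ?_, fun b hb => ?_, by rwa [e]⟩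
      · rintro _ ⟨a, ha, rfl⟩ _ ⟨b, hb, rfl⟩ h
        rw [π2 a ha, π2 b hb] at h
        rw [h]
      · rintro _ ⟨a, ha, rfl⟩
        rw [π2 a ha]; exact z2 ha
      · obtain ⟨c, h1, h2⟩ := z3 b hb
        exact ⟨π c, ⟨c, h1, rfl⟩, by rwa [π2 c h1]⟩
    have h3 : ∃ Z ∈ 𝒜 d, ∀ b < d, ∃ p ∈ Z ∩ π '' Z0, b < p.g := by
      by_contra h
      push Not at h
      have h4 := (h𝒜 d).2 (y := insert (π '' Z0) (𝒜 d)) ⟨fun Z hZ => hZ.elim (fun e => e ▸ t1)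
        ((h𝒜 d).1.1 Z), (h𝒜 d).1.2.insert fun Z hZ _ => ⟨by rw [inter_comm]; exact h Z hZ,
          h Z hZ⟩⟩ (subset_insert _ _) (mem_insert _ _)
      obtain ⟨b, b1, b2⟩ := h _ h4
      obtain ⟨p, p1, p2⟩ := t1.2.2.2.1 b b1
      exact (b2 p ⟨p1, p1⟩).not_gt p2
    obtain ⟨Z, hZ, h4⟩ := h3
    refine ⟨⟨KZ d Z, d, SZ Z⟩, ⟨hd, Z, hZ, rfl⟩, rfl, ?_⟩
    obtain ⟨b0, b1, -⟩ := hd ∅ countable_empty (empty_subset _)
    have : Nonempty (Iio d) := ⟨⟨b0, b1⟩⟩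
    obtain ⟨x, hx⟩ := IsCompact.nonempty_iInter_of_directed_nonempty_isCompact_isClosed
      (fun b : Iio d => closure (⋃ p ∈ {p ∈ Z | b.1 < p.g}, p.K) ∩ closure W)
      (directed_of_isDirected_le fun a b hab => inter_subset_inter_left _ (closure_mono
        (biUnion_subset_biUnion_left fun p hp => ⟨hp.1, lt_of_le_of_lt hab hp.2⟩)))
      (fun b => by
        obtain ⟨_, ⟨p1, c, hc, rfl⟩, p2⟩ := h4 b.1 b.2
        obtain ⟨y, y1, y2⟩ := π3 c hc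
        exact ⟨y, subset_closure (mem_biUnion (x := π c) ⟨p1, p2⟩ y1), subset_closure y2⟩)
      (fun b => (isClosed_closure.inter isClosed_closure).isCompact)
      fun b => isClosed_closure.inter isClosed_closure
    exact ⟨x, mem_iInter₂.2 fun b hb => (mem_iInter.1 hx ⟨b, hb⟩).1, (mem_iInter.1 hx ⟨b0, b1⟩).2⟩

def A0 : Set Pc := {q | ¬ U q.g ∧ q = ⟨{pure q.g}, q.g, {q.g}⟩}

theorem good0 : Good A0 := by
  rintro p ⟨h1, h2⟩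
  rw [h2]
  refine ⟨isClosed_singleton, ?_, ?_⟩
  · rintro _ rfl
    refine ⟨⟨fun C _ h => Ultrafilter.mem_pure.2 ⟨fun h3 => ?_, self_mem_Iic⟩,
      fun _ => Ultrafilter.mem_pure.2 rfl⟩, Ultrafilter.mem_pure.2 rfl⟩
    obtain ⟨c, hc, h4⟩ := mem_iUnion₂.1 h3
    exact (mem_Iio.1 (h hc)).not_ge (mem_Iic.1 h4)
  · rintro q ⟨-, h3⟩ y hy h4
    rw [h3] at hy ⊢
    rw [show y = pure q.g from hy] at h4
    rw [show q.g = p.g from Ultrafilter.mem_pure.1 h4]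

theorem levels : ∃ A : ℕ → Set Pc, A 0 = A0 ∧ (∀ n, Good (A n)) ∧ ∀ n d, U d →
    ∀ W : Set (Ultrafilter L), (∀ b < d, ∃ p ∈ A n, b < p.g ∧ p.g < d ∧ (p.K ∩ W).Nonempty) →
      ∃ q ∈ A (n + 1), q.g = d ∧ (q.K ∩ closure W).Nonempty := by
  choose F f1 f2 using @step
  obtain ⟨A, a0, a1⟩ : ∃ A : ℕ → {A // Good A}, A 0 = ⟨A0, good0⟩ ∧
      ∀ n, A (n + 1) = ⟨F (A n).2, f1 _⟩ :=
    ⟨fun n => Nat.rec ⟨A0, good0⟩ (fun _ A => ⟨F A.2, f1 _⟩) n, rfl, fun _ => rfl⟩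
  exact ⟨fun n => (A n).1, by simp only [a0], fun n => (A n).2, fun n => by
    simp only [a1]; exact f2 _⟩

def Y : Type := L

noncomputable instance : LinearOrder Y := inferInstanceAs (LinearOrder L)

instance : TopologicalSpace Y where
  IsOpen O := ∀ g ∈ O, U g → ∃ b < g, Ioc b g ⊆ O
  isOpen_univ g _ h := by
    obtain ⟨b, h1, -⟩ := h ∅ countable_empty (empty_subset _)
    exact ⟨b, h1, subset_univ _⟩
  isOpen_inter s t hs ht g hg h := by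
    obtain ⟨a, a1, a2⟩ := hs g hg.1 h
    obtain ⟨b, b1, b2⟩ := ht g hg.2 h
    exact ⟨max a b, max_lt a1 b1, fun x hx => ⟨a2 ⟨(le_max_left a b).trans_lt hx.1, hx.2⟩,
      b2 ⟨(le_max_right a b).trans_lt hx.1, hx.2⟩⟩⟩
  isOpen_sUnion s hs g hg h := by
    obtain ⟨t, ht, h1⟩ := hg
    obtain ⟨b, b1, b2⟩ := hs t ht g h1 h
    exact ⟨b, b1, b2.trans (subset_sUnion_of_mem ht)⟩

theorem op {O : Set Y} : IsOpen O ↔ ∀ g ∈ O, U g → ∃ b < g, Ioc b g ⊆ O := Iff.rfl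

theorem oIic (a : Y) : IsOpen (Iic a) := fun g hg h => by
  obtain ⟨b, h1, -⟩ := h ∅ countable_empty (empty_subset _)
  exact ⟨b, h1, fun x hx => hx.2.trans hg⟩

theorem oIoi (a : Y) : IsOpen (Ioi a) := fun _ hg _ => ⟨a, hg, fun _ hx => hx.1⟩

theorem oIio (a : Y) : IsOpen (Iio a) := fun g hg h => by
  obtain ⟨b, h1, -⟩ := h ∅ countable_empty (empty_subset _)
  exact ⟨b, h1, fun x hx => hx.2.trans_lt hg⟩

instance : T1Space Y := ⟨fun a => ⟨Iio_union_Ioi (a := a) ▸ (oIio a).union (oIoi a)⟩⟩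

instance : T3Space Y where
  regular := (RegularSpace.of_exists_mem_nhds_isClosed_subset fun g s hs => by
    obtain ⟨O, o1, o2, o3⟩ := mem_nhds_iff.1 hs
    by_cases h : U g
    · obtain ⟨b, b1, b2⟩ := o2 g o3 h
      refine ⟨Ioc b g, ((oIoi b).inter (oIic g)).mem_nhds ⟨b1, self_mem_Iic⟩, ⟨?_⟩, b2.trans o1⟩
      rw [← Ioi_inter_Iic, compl_inter, compl_Ioi, compl_Iic]
      exact (oIic b).union (oIoi g)
    · refine ⟨{g}, IsOpen.mem_nhds (fun a ha h1 => ?_) rfl, isClosed_singleton,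
        singleton_subset_iff.2 (o1 o3)⟩
      rw [show a = g from ha] at h1
      exact absurd h1 h).regular

theorem notw (𝒱 : ℕ → Set (Set L)) (h1 : ∀ n, ∀ V ∈ 𝒱 n,
      (∀ g ∈ V, U g → ∃ b < g, Ioc b g ⊆ V) ∧ ∃ U ∈ range Iic, V ⊆ U)
    (h2 : ∀ x, ∃ n, {V ∈ 𝒱 n | x ∈ V}.Nonempty ∧ {V ∈ 𝒱 n | x ∈ V}.Finite) : False := by
  have c0 : #ℕ ≤ aleph 1 := mk_nat.le.trans aleph0_lt_aleph_one.le
  have h3 : ∀ V : Set L, ∃ a : L, (∃ n, V ∈ 𝒱 n) → V ⊆ Iic a := fun V => by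
    by_cases h : ∃ n, V ∈ 𝒱 n
    · obtain ⟨n, hn⟩ := h
      obtain ⟨_, ⟨a, rfl⟩, h⟩ := (h1 n V hn).2
      exact ⟨a, fun _ => h⟩
    · obtain ⟨a, -⟩ := bddL (ι := Empty) (by simp) Empty.elim
      exact ⟨a, fun h' => absurd h' h⟩
  choose β hβ using h3
  have h4 : ∀ (x : L) n, ∃ b : L, ({V ∈ 𝒱 n | x ∈ V}.Finite → ∀ V ∈ 𝒱 n, x ∈ V → β V < b) ∧
      ((∃ y : L, x < y ∧ {V ∈ 𝒱 n | y ∈ V}.Finite) →
        ∃ y : L, x < y ∧ {V ∈ 𝒱 n | y ∈ V}.Finite ∧ y < b) := fun x n => by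
    obtain ⟨b1, h5⟩ : ∃ b : L, {V | V ∈ 𝒱 n ∧ x ∈ V}.Finite → ∀ V ∈ 𝒱 n, x ∈ V → β V < b := by
      by_cases h : {V | V ∈ 𝒱 n ∧ x ∈ V}.Finite
      · obtain ⟨b, hb⟩ := bddL ((le_aleph0_iff_set_countable.2 h.countable).trans
          aleph0_lt_aleph_one.le) fun V => β V.1
        exact ⟨b, fun _ V h5 h6 => hb ⟨V, h5, h6⟩⟩
      · exact ⟨x, fun h' => absurd h' h⟩
    by_cases h : ∃ y : L, x < y ∧ {V ∈ 𝒱 n | y ∈ V}.Finite
    · obtain ⟨y, y1, y2⟩ := h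
      obtain ⟨b2, h6⟩ := bddL (ι := Unit)
        (by simpa using one_le_aleph0.trans aleph0_lt_aleph_one.le) fun _ => y
      exact ⟨max b1 b2, fun h V h7 h8 => lt_max_of_lt_left (h5 h V h7 h8),
        fun _ => ⟨y, y1, y2, lt_max_of_lt_right (h6 ())⟩⟩
    · exact ⟨b1, h5, fun h' => absurd h' h⟩
  choose g g1 g2 using h4
  choose G hG using fun x => bddL c0 (g x)
  obtain ⟨b0, -⟩ := bddL (ι := Empty) (by simp) Empty.elim
  obtain ⟨d, d1, -, d3⟩ := fix G b0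
  obtain ⟨n, ⟨V, v1, v2⟩, h5⟩ := h2 d
  obtain ⟨b, b1, b2⟩ := (h1 n V v1).1 d v2 d1
  obtain ⟨y, y1, y2, y3⟩ := g2 b n ⟨d, b1, h5⟩
  have h6 : y < d := (y3.trans (hG b n)).trans (d3 b b1)
  exact (((g1 y n y2 V v1 (b2 ⟨y1, h6.le⟩)).trans (hG y n)).trans (d3 y h6)).not_ge
    (hβ V ⟨n, v1⟩ v2)

theorem P_loc {y : Ultrafilter L} {g : L} (h : P y g) {a b : L} {s : Set L} (hs : s ∈ y)
    (h1 : s ⊆ Icc a b) : a ≤ g ∧ g ≤ b := by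
  constructor
  · obtain ⟨c, c1, c2⟩ := Filter.nonempty_of_mem (inter_mem hs
      (h.1 ∅ countable_empty (empty_subset _)))
    exact (h1 c1).1.trans c2.2
  · by_contra h2
    obtain ⟨c, c1, c2⟩ := Filter.nonempty_of_mem (inter_mem hs
      (h.1 {b} (countable_singleton b) (singleton_subset_iff.2 (not_le.1 h2))))
    exact c2.1 (mem_biUnion (mem_singleton b) (h1 c1).2)

theorem P_uniq {y : Ultrafilter L} {g g' : L} (h : P y g) (h' : P y g') : g = g' := by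
  have : ∀ {g g' : L}, P y g → P y g' → g ≤ g' := fun {g g'} h h' => by
    by_contra h2
    obtain ⟨c, c1, c2⟩ := Filter.nonempty_of_mem (inter_mem (h'.1 ∅ countable_empty
      (empty_subset _)) (h.1 {g'} (countable_singleton _) (singleton_subset_iff.2 (not_le.1 h2))))
    exact c2.1 (mem_biUnion (mem_singleton g') c1.2)
  exact (this h h').antisymm (this h' h)

theorem succ_cof {d : L} (hd : U d) (b : L) (hb : b < d) : ∃ c, ¬ U c ∧ b < c ∧ c < d := by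
  obtain ⟨e, e1, e2⟩ := hd {b} (countable_singleton b) (singleton_subset_iff.2 hb)
  obtain ⟨c, c1, c2⟩ := wellFounded_lt.has_min (Ioi b) ⟨e, e2 b rfl⟩
  refine ⟨c, fun h => ?_, c1, (not_lt.1 (c2 e (e2 b rfl))).trans_lt e1⟩
  obtain ⟨a, a1, a2⟩ := h {b} (countable_singleton b) (singleton_subset_iff.2 c1)
  exact c2 a (a2 b rfl) a1

end Pool.Agent.H.MP_55e6a3_gt
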